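import Mathlib

/-! Project AHC: the Ahlswede (Ahlswede-Cai-Zhang) conjecture on l-cross-intersecting pairs. -/

set_option autoImplicit false

namespace Pool.Agent.W758.AHC

/-- the conjectured maximum -/
def Pmax (l n : ℕ) : ℕ := (Finset.range (n - l + 1)).sup (fun m => 2 ^ m * Nat.choose (n - m) l)

/-- central binomial type bounds -/
def M0 (m : ℕ) : ℕ := m.choose (m / 2)

/-- `S(rho) = C(rho+1, floor((rho+1)/2))` -/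
def SS (r : ℕ) : ℕ := (r + 1).choose ((r + 1) / 2)

/-- indicator -/
def ind {ι : Type} [DecidableEq ι] (a : Finset ι) (x : ι) : ℚ := if x ∈ a then 1 else 0

/-- Littlewood-Offord (Erdos): -/
def S_LO : Prop := ∀ (ι : Type) [DecidableEq ι] (s : Finset ι) (w : ι → ℚ) (t : ℚ)
  (X : Finset (Finset ι)), (∀ i ∈ s, w i ≠ 0) →
  (∀ x ∈ X, x ⊆ s ∧ ∑ i ∈ x, w i = t) → X.card ≤ M0 s.card

/-- two values -/
def S_LO2 : Prop := ∀ (ι : Type) [DecidableEq ι] (s : Finset ι) (w : ι → ℚ) (w0 : ℚ)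
  (X : Finset (Finset ι)), (∀ i ∈ s, w i ≠ 0) →
  (∀ x ∈ X, x ⊆ s ∧ (w0 + ∑ i ∈ x, w i = 0 ∨ w0 + ∑ i ∈ x, w i = 1)) → X.card ≤ SS s.card

def S_BIN : Prop := ∀ a b : ℕ, 1 ≤ a → 1 ≤ b → 3 * (M0 a * M0 b) ≤ 2 * M0 (a + b)

/-- one two-valued and one fixed functional -/
def S_LO3 : Prop := ∀ (ι : Type) [DecidableEq ι] (s : Finset ι) (w : ι → ℚ) (w0 : ℚ)
  (u : ι → ℚ) (e : ℚ) (X : Finset (Finset ι)), (∀ i ∈ s, w i ≠ 0) → (∃ i ∈ s, u i ≠ 0) →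
  (∀ x ∈ X, x ⊆ s ∧ (w0 + ∑ i ∈ x, w i = 0 ∨ w0 + ∑ i ∈ x, w i = 1) ∧ ∑ i ∈ x, u i = e) →
  3 * X.card ≤ 2 * SS s.card

/-- two independent fixed functionals -/
def S_LO4 : Prop := ∀ (ι : Type) [DecidableEq ι] (s : Finset ι) (v : ι → ℚ) (lam : ℚ)
  (u : ι → ℚ) (e : ℚ) (X : Finset (Finset ι)), (∀ i ∈ s, v i ≠ 0) →
  (¬ ∃ μ : ℚ, (∀ i ∈ s, u i = μ * v i) ∧ e = μ * lam) →
  (∀ x ∈ X, x ⊆ s ∧ ∑ i ∈ x, v i = lam ∧ ∑ i ∈ x, u i = e) →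
  3 * X.card ≤ 2 * M0 s.card

/-- a system: coordinates `S`, one equation `(v, lam)`, and two-valued constraints `k ∈ K`. -/
structure Sys (ι κ : Type) where
  S : Finset ι
  K : Finset κ
  v : ι → ℚ
  lam : ℚ
  c : ι → κ → ℚ
  w : κ → ℚ

variable {ι κ : Type}

/-- support of the equation -/
def Sys.T (σ : Sys ι κ) : Finset ι := σ.S.filter (fun i => σ.v i ≠ 0)

/-- support of the constraint `k` -/
def Sys.N (σ : Sys ι κ) (k : κ) : Finset ι := σ.S.filter (fun i => σ.c i k ≠ 0)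

/-- value of the constraint `k` at the set `x` -/
def Sys.f (σ : Sys ι κ) (k : κ) (x : Finset ι) : ℚ := σ.w k + ∑ i ∈ x, σ.c i k

/-- `X` is a family of solutions on the coordinates `C` -/
def Sys.Good (σ : Sys ι κ) (C : Finset ι) (X : Finset (Finset ι)) : Prop :=
  ∀ x ∈ X, x ⊆ C ∧ ∑ i ∈ x, σ.v i = σ.lam ∧
    ∀ k ∈ σ.K, σ.N k ⊆ C → (σ.f k x = 0 ∨ σ.f k x = 1)

/-- `(u, e)` is a multiple of the equation `(v, lam)` on `C` -/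
def Sys.Deg (σ : Sys ι κ) (C : Finset ι) (u : ι → ℚ) (e : ℚ) : Prop :=
  ∃ μ : ℚ, (∀ i ∈ C, u i = μ * σ.v i) ∧ e = μ * σ.lam

/-- the invariant of the greedy procedure -/
def Sys.Inv (σ : Sys ι κ) (C : Finset ι) (M : ℕ) : Prop :=
  σ.T ⊆ C ∧ C ⊆ σ.S ∧ (∀ X : Finset (Finset ι), σ.Good C X → X.card ≤ M) ∧
  (∀ (u : ι → ℚ) (e : ℚ) (X : Finset (Finset ι)), ¬ σ.Deg C u e → σ.Good C X →
    (∀ x ∈ X, ∑ i ∈ x, u i = e) → 3 * X.card ≤ 2 * M)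

def S_BASE : Prop := S_LO → S_LO4 → ∀ (ι κ : Type) [DecidableEq ι] [DecidableEq κ] (σ : Sys ι κ),
  σ.Inv σ.T (M0 σ.T.card)

def S_STEP : Prop := S_LO2 → S_LO3 → ∀ (ι κ : Type) [DecidableEq ι] [DecidableEq κ]
  (σ : Sys ι κ) (C : Finset ι) (M : ℕ) (k : κ), σ.Inv C M → k ∈ σ.K → (σ.N k \ C).Nonempty →
  σ.Inv (C ∪ σ.N k) (M * SS (σ.N k \ C).card)

/-- existence of the greedy sequence -/
def S_SIDE : Prop := ∀ (ι κ : Type) [DecidableEq ι] [DecidableEq κ] (σ : Sys ι κ),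
  ∃ (C : Finset ι) (L : List ℕ), (∀ r ∈ L, 2 ≤ r) ∧ C.card = σ.T.card + L.sum ∧
    σ.Inv C (M0 σ.T.card * (L.map SS).prod) ∧ (∀ k ∈ σ.K, (σ.N k \ C).card ≤ 1)

/-- the final count -/
def S_FIN : Prop := ∀ (ι κ : Type) [DecidableEq ι] [DecidableEq κ] (σ : Sys ι κ)
  (C : Finset ι) (M : ℕ), σ.Inv C M → (∀ k ∈ σ.K, (σ.N k \ C).card ≤ 1) →
  (∀ i ∈ σ.S \ C, ∃ k ∈ σ.K, i ∈ σ.N k ∧
    (σ.c i k = 1 → ¬ σ.Deg C (fun j => σ.c j k) (-σ.w k)) ∧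
    (σ.c i k = -1 → ¬ σ.Deg C (fun j => σ.c j k) (1 - σ.w k))) →
  ∀ X : Finset (Finset ι), σ.Good σ.S X →
    3 * X.card ≤ M * (2 * 2 ^ (σ.S \ C).card + 1)

/-- linear algebra: a minimal set `I` of coordinates determining the members of `A` affinely -/
def S_LA : Prop := ∀ (ι : Type) [Fintype ι] [DecidableEq ι] (A : Finset (Finset ι)),
  A.Nonempty → ∃ (I : Finset ι) (v : ι → ℚ) (c : ι → ι → ℚ),
    (∀ a ∈ A, ∀ j, j ∉ I → ind a j = v j + ∑ i ∈ a ∩ I, c i j) ∧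
    (∀ (g : ι → ℚ) (g0 : ℚ), (∀ a ∈ A, ∑ i ∈ a ∩ I, g i = g0) → ∀ i ∈ I, g i = 0)

/-- leftover coordinates: a purely combinatorial counting lemma. `E i j` = adjacency. -/
def S_PC : Prop := ∀ (ι κ : Type) [DecidableEq ι] [DecidableEq κ] (I : Finset ι) (J : Finset κ)
  (E : ι → κ → Prop) [∀ i j, Decidable (E i j)] (C : Finset ι) (D : Finset κ),
  C ⊆ I → D ⊆ J →
  (∀ j ∈ J, ((I.filter (fun i => E i j)) \ C).card ≤ 1) →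
  (∀ i ∈ I, ((J.filter (fun j => E i j)) \ D).card ≤ 1) →
  (∀ i ∈ I \ C, ∃ j ∈ J, E i j ∧ 2 ≤ (I.filter (fun i' => E i' j)).card) →
  (I \ C).card ≤ C.card + D.card

/-- the numerical inequality -/
def S_NUM : Prop := ∀ (m p q n l : ℕ) (L : List ℕ), 1 ≤ m → L ≠ [] → (∀ r ∈ L, 2 ≤ r) →
  p ≤ m + L.sum → q ≤ m + L.sum → n = m + L.sum + p + q → 2 * l ≤ n →
  ¬ (m = 2 ∧ L = [3, 3] ∧ p = 0 ∧ q = 0) →
  ¬ (m = 2 ∧ L = [3] ∧ ((p = 5 ∧ q = 0) ∨ (p = 0 ∧ q = 5))) →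
  M0 m * (L.map SS).prod * (2 * 2 ^ p + 1) * (2 * 2 ^ q + 1) * 4 ^ l ≤
    9 * 2 ^ n * Nat.choose (2 * l) l

/-- `|A| = 6` is impossible when three coordinates determine the members -/
def S_X2 : Prop := ∀ (ι : Type) [DecidableEq ι] (I : Finset ι) (A : Finset (Finset ι)),
  I.card = 3 → (∀ a ∈ A, ∀ a' ∈ A, a ∩ I = a' ∩ I → a = a') → A.card ≤ 6 →
  (∀ i ∈ I, A.card < 2 * (A.filter (fun a => i ∈ a)).card) → A.card ≤ 5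

/-- regime: every point lies in more than half of the members -/
def Half {ι : Type} [DecidableEq ι] (A : Finset (Finset ι)) : Prop :=
  ∀ x, A.card < 2 * (A.filter (fun a => x ∈ a)).card

/-- the regime lemma -/
def S_REG : Prop := ∀ (ι : Type) [Fintype ι] [DecidableEq ι] (l : ℕ) (A B : Finset (Finset ι)),
  1 ≤ l → 2 * l ≤ Fintype.card ι → 3 ≤ A.card → 3 ≤ B.card → Half A → Half B →
  (∀ a ∈ A, ∀ b ∈ B, (a ∩ b).card = l) →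
  A.card * B.card * 4 ^ l ≤ 2 ^ Fintype.card ι * Nat.choose (2 * l) l

/-- the data produced by linear algebra -/
structure LAD {ι : Type} [Fintype ι] [DecidableEq ι] (A B : Finset (Finset ι)) (l : ℕ)
    (I : Finset ι) (v : ι → ℚ) (c : ι → ι → ℚ) : Prop where
  h1 : ∀ a ∈ A, ∀ j ∈ Iᶜ, ind a j = v j + ∑ i ∈ a ∩ I, c i j
  h2 : ∀ b ∈ B, ∀ i ∈ I, ind b i = - ∑ j ∈ b ∩ Iᶜ, c i j
  h3 : ∀ b ∈ B, ∑ j ∈ b ∩ Iᶜ, v j = l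
  h4 : ∀ i ∈ I, (∃ a ∈ A, i ∈ a) ∧ (∃ a ∈ A, i ∉ a)

def S_LAB : Prop := S_LA → ∀ (ι : Type) [Fintype ι] [DecidableEq ι] (l : ℕ)
  (A B : Finset (Finset ι)), A.Nonempty → (∀ a ∈ A, ∀ b ∈ B, (a ∩ b).card = l) →
  ∃ (I : Finset ι) (v : ι → ℚ) (c : ι → ι → ℚ), LAD A B l I v c

/-- (R3) -/
def R3 {ι : Type} [Fintype ι] [DecidableEq ι] (I : Finset ι) (c : ι → ι → ℚ) : Prop :=
  ∀ i ∈ I, ∃ j ∈ Iᶜ, c i j ≠ 0 ∧ 2 ≤ (I.filter (fun i' => c i' j ≠ 0)).card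

/-- (R4) -/
def R4 {ι : Type} [Fintype ι] [DecidableEq ι] (I : Finset ι) (v : ι → ℚ) (c : ι → ι → ℚ) : Prop :=
  ∀ j ∈ Iᶜ, v j = 0 → ∃ i ∈ I, c i j ≠ 0 ∧ 2 ≤ (Iᶜ.filter (fun j' => c i j' ≠ 0)).card

def S_R34 : Prop := ∀ (ι : Type) [Fintype ι] [DecidableEq ι] (l : ℕ)
  (A B : Finset (Finset ι)) (I : Finset ι) (v : ι → ℚ) (c : ι → ι → ℚ),
  A.Nonempty → B.Nonempty → LAD A B l I v c → Half A → Half B → R3 I c ∧ R4 I v c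

/-- bound for `A` -/
def S_XB : Prop := S_SIDE → S_FIN → ∀ (ι : Type) [Fintype ι] [DecidableEq ι] (l : ℕ)
  (A B : Finset (Finset ι)) (I : Finset ι) (v : ι → ℚ) (c : ι → ι → ℚ),
  LAD A B l I v c → R3 I c → I.Nonempty →
  ∃ (C : Finset ι) (L : List ℕ), L ≠ [] ∧ (∀ r ∈ L, 2 ≤ r) ∧ C ⊆ I ∧ C.card = L.sum ∧
    (∀ j ∈ Iᶜ, ((I.filter (fun i => c i j ≠ 0)) \ C).card ≤ 1) ∧
    3 * A.card ≤ (L.map SS).prod * (2 * 2 ^ (I \ C).card + 1)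

/-- bound for `B` -/
def S_YB : Prop := S_SIDE → S_FIN → ∀ (ι : Type) [Fintype ι] [DecidableEq ι] (l : ℕ)
  (A B : Finset (Finset ι)) (I : Finset ι) (v : ι → ℚ) (c : ι → ι → ℚ),
  1 ≤ l → B.Nonempty → LAD A B l I v c → Half B → R4 I v c →
  ∃ (D : Finset ι) (L : List ℕ), (∀ r ∈ L, 2 ≤ r) ∧ D ⊆ Iᶜ ∧
    (∀ j ∈ Iᶜ \ D, v j = 0) ∧ D.card = (Iᶜ.filter (fun j => v j ≠ 0)).card + L.sum ∧
    (∀ i ∈ I, ((Iᶜ.filter (fun j => c i j ≠ 0)) \ D).card ≤ 1) ∧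
    3 * B.card ≤ M0 (Iᶜ.filter (fun j => v j ≠ 0)).card * (L.map SS).prod *
      (2 * 2 ^ (Iᶜ \ D).card + 1)

/-- upper bound for all ground sets -/
def S_UP : Prop := ∀ (l n : ℕ) (A B : Finset (Finset (Fin n))),
  (∀ a ∈ A, ∀ b ∈ B, (a ∩ b).card = l) → A.card * B.card ≤ Pmax l n

/-- ground set a finset `V` -/
def S_REGV : Prop := ∀ (ι : Type) [DecidableEq ι] (l : ℕ) (V : Finset ι)
  (A B : Finset (Finset ι)), (∀ a ∈ A, a ⊆ V) → (∀ b ∈ B, b ⊆ V) →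
  1 ≤ l → 2 * l ≤ V.card → 3 ≤ A.card → 3 ≤ B.card →
  (∀ x ∈ V, A.card < 2 * (A.filter (fun a => x ∈ a)).card) →
  (∀ x ∈ V, B.card < 2 * (B.filter (fun a => x ∈ a)).card) →
  (∀ a ∈ A, ∀ b ∈ B, (a ∩ b).card = l) →
  A.card * B.card * 4 ^ l ≤ 2 ^ V.card * Nat.choose (2 * l) l

def S_UPV : Prop := ∀ (ι : Type) [DecidableEq ι] (l : ℕ) (V : Finset ι)
  (A B : Finset (Finset ι)), (∀ a ∈ A, a ⊆ V) → (∀ b ∈ B, b ⊆ V) →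
  (∀ a ∈ A, ∀ b ∈ B, (a ∩ b).card = l) → A.card * B.card ≤ Pmax l V.card

/-- facts about `Pmax` -/
def S_PF : Prop := (∀ l n : ℕ, 2 * Pmax l n ≤ Pmax l (n + 1)) ∧
  (∀ l n : ℕ, Nat.choose n l ≤ Pmax l n) ∧
  (∀ l n : ℕ, n ≤ 2 * l → Pmax l n ≤ Nat.choose n l) ∧
  (∀ l n : ℕ, 2 * l ≤ n → 2 ^ (n - 2 * l) * Nat.choose (2 * l) l ≤ Pmax l n)

/-- the recursion step: some coordinate is missing or rare in one family -/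
def S_REC : Prop := S_PF → ∀ (ι : Type) [DecidableEq ι] (l : ℕ) (V : Finset ι)
  (A B : Finset (Finset ι)) (x : ι), x ∈ V → (∀ a ∈ A, a ⊆ V) → (∀ b ∈ B, b ⊆ V) →
  (∀ a ∈ A, ∀ b ∈ B, (a ∩ b).card = l) →
  (∀ (A' B' : Finset (Finset ι)), (∀ a ∈ A', a ⊆ V.erase x) → (∀ b ∈ B', b ⊆ V.erase x) →
    (∀ a ∈ A', ∀ b ∈ B', (a ∩ b).card = l) → A'.card * B'.card ≤ Pmax l (V.erase x).card) →
  2 * (A.filter (fun a => x ∈ a)).card ≤ A.card →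
  A.card * B.card ≤ Pmax l V.card

/-- averaging for small ground sets -/
def S_AVG : Prop := S_PF → ∀ (ι : Type) [DecidableEq ι] (l : ℕ) (V : Finset ι)
  (A B : Finset (Finset ι)), 1 ≤ l → V.card < 2 * l →
  (∀ a ∈ A, a ⊆ V) → (∀ b ∈ B, b ⊆ V) → (∀ a ∈ A, ∀ b ∈ B, (a ∩ b).card = l) →
  (∀ x ∈ V, ∀ (A' B' : Finset (Finset ι)), (∀ a ∈ A', a ⊆ V.erase x) →
    (∀ b ∈ B', b ⊆ V.erase x) → (∀ a ∈ A', ∀ b ∈ B', (a ∩ b).card = l - 1) →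
    A'.card * B'.card ≤ Pmax (l - 1) (V.erase x).card) →
  A.card * B.card ≤ Pmax l V.card

/-- the construction -/
def S_LOW : Prop := ∀ (n l m : ℕ), l ≤ n → m ≤ n - l → ∃ A B : Finset (Finset (Fin n)),
  (∀ a ∈ A, ∀ b ∈ B, (a ∩ b).card = l) ∧ A.card * B.card = 2 ^ m * Nat.choose (n - m) l

end Pool.Agent.W758.AHC
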