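import Pool.Agent.W758.AHC.Stm

set_option autoImplicit false

namespace Pool.Agent.W758.AHC

open Finset

lemma two_choose_le (l k : ℕ) (hk : k + 1 ≤ 2 * l) : 2 * Nat.choose k l ≤ Nat.choose (k + 1) l := by
  rcases Nat.lt_or_ge k l with h | h
  · rw [Nat.choose_eq_zero_of_lt h]; omega
  · have h1 := Nat.choose_mul_succ_eq k l
    -- k.choose l * (k+1) = (k+1).choose l * (k+1-l)
    have h2 : 2 * (k + 1 - l) ≤ k + 1 := by omega
    have h3 : 0 < k + 1 - l := by omega
    by_contra hcon
    push Not at hcon
    have h4 : (k + 1).choose l * (k + 1 - l) < 2 * k.choose l * (k + 1 - l) :=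
      Nat.mul_lt_mul_of_pos_right hcon h3
    have h5 : 2 * k.choose l * (k + 1 - l) ≤ k.choose l * (k + 1) := by
      calc 2 * k.choose l * (k + 1 - l) = k.choose l * (2 * (k + 1 - l)) := by ring
        _ ≤ _ := Nat.mul_le_mul_left _ h2
    omega

lemma pow_choose_le (l n m : ℕ) (hn : n ≤ 2 * l) (hm : m ≤ n) :
    2 ^ m * Nat.choose (n - m) l ≤ Nat.choose n l := by
  induction m with
  | zero => simp
  | succ m ih =>
    have h1 := ih (by omega)
    have h2 := two_choose_le l (n - (m + 1)) (by omega)
    have h3 : n - (m + 1) + 1 = n - m := by omega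
    rw [h3] at h2
    calc 2 ^ (m + 1) * Nat.choose (n - (m + 1)) l = 2 ^ m * (2 * Nat.choose (n - (m + 1)) l) := by ring
      _ ≤ 2 ^ m * Nat.choose (n - m) l := Nat.mul_le_mul_left _ h2
      _ ≤ _ := h1

theorem pf : S_PF := by
  refine ⟨?_, ?_, ?_, ?_⟩
  · intro l n
    have hne : (range (n - l + 1)).Nonempty := ⟨0, by simp⟩
    obtain ⟨m, hm, he⟩ := exists_mem_eq_sup (range (n - l + 1)) hne
      (fun m => 2 ^ m * Nat.choose (n - m) l)
    unfold Pmax
    rw [he]
    rw [mem_range] at hm
    rcases Nat.lt_or_ge n l with h | h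
    · have : m = 0 := by omega
      subst this
      simp [Nat.choose_eq_zero_of_lt h]
    · have h2 : m + 1 ∈ range (n + 1 - l + 1) := by rw [mem_range]; omega
      have h3 := le_sup (f := fun m => 2 ^ m * Nat.choose (n + 1 - m) l) h2
      refine le_trans (le_of_eq ?_) h3
      have : n + 1 - (m + 1) = n - m := by omega
      simp only [this]
      ring
  · intro l n
    have h2 : 0 ∈ range (n - l + 1) := by simp
    have h3 := le_sup (f := fun m => 2 ^ m * Nat.choose (n - m) l) h2
    simpa [Pmax] using h3
  · intro l n hn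
    unfold Pmax
    apply Finset.sup_le
    intro m hm
    rw [mem_range] at hm
    rcases Nat.lt_or_ge n l with h | h
    · have : m = 0 := by omega
      subst this; simp
    · exact pow_choose_le l n m hn (by omega)
  · intro l n hn
    have h2 : n - 2 * l ∈ range (n - l + 1) := by rw [mem_range]; omega
    have h3 := le_sup (f := fun m => 2 ^ m * Nat.choose (n - m) l) h2
    have : n - (n - 2 * l) = 2 * l := by omega
    simpa [Pmax, this] using h3

end Pool.Agent.W758.AHC
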