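import Pool.Agent.W758.AHC.Stm

set_option autoImplicit false

namespace Pool.Agent.W758.AHC

open Finset

lemma ind_inj {ι : Type} [DecidableEq ι] {a b : Finset ι} {x : ι} (h : ind a x = ind b x) :
    x ∈ a ↔ x ∈ b := by
  unfold ind at h
  by_cases h1 : x ∈ a <;> by_cases h2 : x ∈ b <;> simp [h1, h2] at h ⊢

lemma lad_inj {ι : Type} [Fintype ι] [DecidableEq ι] {A B : Finset (Finset ι)} {l : ℕ}
    {I : Finset ι} {v : ι → ℚ} {c : ι → ι → ℚ} (h : LAD A B l I v c) :
    ∀ a ∈ A, ∀ a' ∈ A, a ∩ I = a' ∩ I → a = a' := by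
  intro a ha a' ha' hI
  ext x
  by_cases hx : x ∈ I
  · constructor
    · intro hxa
      have : x ∈ a' ∩ I := hI ▸ mem_inter.2 ⟨hxa, hx⟩
      exact (mem_inter.1 this).1
    · intro hxa
      have : x ∈ a ∩ I := hI ▸ mem_inter.2 ⟨hxa, hx⟩
      exact (mem_inter.1 this).1
  · apply ind_inj
    rw [h.h1 a ha x (mem_compl.2 hx), h.h1 a' ha' x (mem_compl.2 hx), hI]

theorem reg (hside : S_SIDE) (hfin : S_FIN) (hla : S_LA) (hlab : S_LAB) (hr : S_R34)
    (hx : S_XB) (hy : S_YB) (hpc : S_PC) (hnum : S_NUM) (hx2 : S_X2) : S_REG := by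
  intro ι _ _ l A B hl hn hA3 hB3 hHA hHB hcross
  have hAne : A.Nonempty := card_pos.1 (by omega)
  have hBne : B.Nonempty := card_pos.1 (by omega)
  obtain ⟨I, v, c, h⟩ := hlab hla ι l A B hAne hcross
  obtain ⟨r3, r4⟩ := hr ι l A B I v c hAne hBne h hHA hHB
  have hinj := lad_inj h
  have hIne : I.Nonempty := by
    rw [nonempty_iff_ne_empty]
    intro hI
    have : A.card ≤ 1 := by
      rw [card_le_one]
      intro a ha a' ha'
      exact hinj a ha a' ha' (by simp [hI])
    omega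
  obtain ⟨C, Lx, hLx, hLx2, hCI, hCc, hCN, hAcard⟩ := hx hside hfin ι l A B I v c h r3 hIne
  obtain ⟨D, Ly, hLy2, hDI, hDv, hDc, hDN, hBcard⟩ := hy hside hfin ι l A B I v c hl hBne h hHB r4
  set m := (Iᶜ.filter (fun j => v j ≠ 0)).card with hm
  have hm1 : 1 ≤ m := by
    obtain ⟨b, hb⟩ := hBne
    have h3 := h.h3 b hb
    rw [hm, Nat.one_le_iff_ne_zero]
    intro h0
    rw [card_eq_zero] at h0
    have : ∑ j ∈ b ∩ Iᶜ, v j = 0 := by
      apply sum_eq_zero
      intro j hj
      by_contra hne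
      have : j ∈ Iᶜ.filter (fun j => v j ≠ 0) := mem_filter.2 ⟨(mem_inter.1 hj).2, hne⟩
      rw [h0] at this
      simp at this
    rw [this] at h3
    have : (l : ℚ) ≠ 0 := by
      have : l ≠ 0 := by omega
      exact_mod_cast this
    exact this h3.symm
  set p := (I \ C).card with hp
  set q := (Iᶜ \ D).card with hq
  have hIcard : I.card = Lx.sum + p := by
    have := card_sdiff_add_card_eq_card hCI
    omega
  have hJcard : Iᶜ.card = m + Ly.sum + q := by
    have := card_sdiff_add_card_eq_card hDI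
    omega
  have hncard : Fintype.card ι = I.card + Iᶜ.card := by
    rw [card_compl]
    have := card_le_univ I
    omega
  have hp1 : p ≤ C.card + D.card := by
    apply hpc ι ι I Iᶜ (fun i j => c i j ≠ 0) C D hCI hDI hCN hDN
    intro i hi
    exact r3 i (mem_sdiff.1 hi).1
  have hq1 : q ≤ D.card + C.card := by
    apply hpc ι ι Iᶜ I (fun j i => c i j ≠ 0) D C hDI hCI hDN hCN
    intro j hj
    exact r4 j (mem_sdiff.1 hj).1 (hDv j hj)
  have hX2 : I.card = 3 → A.card ≤ 6 → A.card ≤ 5 := by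
    intro h3 h6
    exact hx2 ι I A h3 hinj h6 (fun i _ => hHA i)
  have hmain : ∀ (M K : ℕ), A.card * B.card ≤ M → M * 4 ^ l ≤ K →
      A.card * B.card * 4 ^ l ≤ K := fun M K h1 h2 => (Nat.mul_le_mul_right _ h1).trans h2
  by_cases hE1 : m = 2 ∧ Lx ++ Ly = [3, 3] ∧ p = 0 ∧ q = 0
  · obtain ⟨hm2, hL, hp0, hq0⟩ := hE1
    have hcases : (Lx = [3, 3] ∧ Ly = []) ∨ (Lx = [3] ∧ Ly = [3]) := by
      rcases Lx with _ | ⟨x, _ | ⟨y, _ | ⟨z, t⟩⟩⟩
      · exact absurd rfl hLx
      · right; simpa using hL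
      · left
        simp at hL
        simp [hL]
      · simp at hL
    rcases hcases with ⟨h1, h2⟩ | ⟨h1, h2⟩
    · exfalso
      rw [hm2, h2, hq0] at hBcard
      simp [M0] at hBcard
      omega
    · rw [h1, hp0] at hAcard
      rw [hm2, h2, hq0] at hBcard
      have e1 : SS 3 = 6 := by decide
      have e2 : M0 2 = 2 := by decide
      simp [e1, e2] at hAcard hBcard
      have hI3 : I.card = 3 := by rw [hIcard, h1, hp0]; rfl
      have hA5 := hX2 hI3 (by omega)
      have hB12 : B.card ≤ 12 := by omega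
      have hn8 : Fintype.card ι = 8 := by
        rw [hncard, hI3, hJcard, hm2, h2, hq0]; rfl
      rw [hn8] at hn ⊢
      have hl4 : l ≤ 4 := by omega
      have hAB : A.card * B.card ≤ 60 := by nlinarith
      refine hmain 60 _ hAB ?_
      interval_cases l <;> decide
  by_cases hE2 : m = 2 ∧ Lx ++ Ly = [3] ∧ ((p = 5 ∧ q = 0) ∨ (p = 0 ∧ q = 5))
  · obtain ⟨hm2, hL, hpq⟩ := hE2
    have hcases : Lx = [3] ∧ Ly = [] := by
      rcases Lx with _ | ⟨x, _ | ⟨y, t⟩⟩
      · exact absurd rfl hLx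
      · simpa using hL
      · simp at hL
    obtain ⟨h1, h2⟩ := hcases
    have e1 : SS 3 = 6 := by decide
    have e2 : M0 2 = 2 := by decide
    rcases hpq with ⟨hp5, hq0⟩ | ⟨hp0, hq5⟩
    · exfalso
      rw [hm2, h2, hq0] at hBcard
      simp [M0] at hBcard
      omega
    · rw [h1, hp0] at hAcard
      rw [hm2, h2, hq5] at hBcard
      simp [e1, e2] at hAcard hBcard
      have hI3 : I.card = 3 := by rw [hIcard, h1, hp0]; rfl
      have hA5 := hX2 hI3 (by omega)
      have hB43 : B.card ≤ 43 := by omega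
      have hn10 : Fintype.card ι = 10 := by
        rw [hncard, hI3, hJcard, hm2, h2, hq5]; rfl
      rw [hn10] at hn ⊢
      have hl5 : l ≤ 5 := by omega
      have hAB : A.card * B.card ≤ 215 := by nlinarith
      refine hmain 215 _ hAB ?_
      interval_cases l <;> decide
  have hall : ∀ r ∈ Lx ++ Ly, 2 ≤ r := by
    intro r hr'
    rcases List.mem_append.1 hr' with h' | h'
    · exact hLx2 r h'
    · exact hLy2 r h'
  have hN := hnum m p q (Fintype.card ι) l (Lx ++ Ly) hm1 (by simp [hLx]) hall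
    (by rw [List.sum_append]; omega) (by rw [List.sum_append]; omega)
    (by rw [List.sum_append]; omega) hn hE1 hE2
  rw [List.map_append, List.prod_append] at hN
  have h9 : 9 * (A.card * B.card * 4 ^ l) ≤ 9 * (2 ^ Fintype.card ι * Nat.choose (2 * l) l) := by
    have hprod := Nat.mul_le_mul hAcard hBcard
    have hprod4 := Nat.mul_le_mul_right (4 ^ l) hprod
    calc 9 * (A.card * B.card * 4 ^ l) = 3 * A.card * (3 * B.card) * 4 ^ l := by ring
      _ ≤ _ := hprod4
      _ = M0 m * ((Lx.map SS).prod * (Ly.map SS).prod) * (2 * 2 ^ p + 1) * (2 * 2 ^ q + 1) * 4 ^ l := by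
          ring
      _ ≤ _ := hN
      _ = _ := by ring
  exact Nat.le_of_mul_le_mul_left h9 (by norm_num)

end Pool.Agent.W758.AHC
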