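import Pool.Agent.W758.AHC.Stm

set_option autoImplicit false

namespace Pool.Agent.W758.AHC

/-- `cc k = C(2k,k)/4^k` -/
def cc (k : ℕ) : ℚ := (Nat.centralBinom k : ℚ) / 4 ^ k

def S_CC : Prop := (∀ m : ℕ, (M0 m : ℚ) = 2 ^ m * cc ((m + 1) / 2)) ∧
  (∀ r : ℕ, (SS r : ℚ) = 2 ^ (r + 1) * cc (r / 2 + 1)) ∧
  (∀ k : ℕ, cc (k + 1) = cc k * ((2 * k + 1) / (2 * k + 2))) ∧
  (∀ k : ℕ, 0 < cc k) ∧ Antitone cc ∧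
  (∀ k t : ℕ, cc k ^ 2 * (4 * k + 1) ≤ cc (k + t) ^ 2 * (4 * (k + t) + 1)) ∧
  (∀ l : ℕ, (Nat.choose (2 * l) l : ℚ) = 4 ^ l * cc l)

/-- product of the greedy factors -/
def PhiZ (m : ℕ) (L : List ℕ) : ℚ := cc ((m + 1) / 2) * (L.map (fun r => 2 * cc (r / 2 + 1))).prod

def S_PHI0 : Prop := S_CC → ∀ (m : ℕ) (L : List ℕ), 1 ≤ m → L ≠ [] → (∀ r ∈ L, 2 ≤ r) →
  ¬ (m = 2 ∧ L = [3, 3]) →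
  ∃ k : ℕ, 2 ≤ k ∧ m + L.sum ≤ 2 * k + 1 ∧ PhiZ m L ≤ cc k ∧
    (k = 2 → m ≤ 2 ∧ ∃ r, r ≤ 3 ∧ L = [r])

def FF (p : ℕ) : ℚ := (2 + (1 / 2) ^ p) / 3

def S_STAR1 : Prop := S_CC → ∀ k p q : ℕ, 2 ≤ k → p ≤ 2 * k + 1 → q ≤ 2 * k + 1 →
  ¬ (k = 2 ∧ ((p = 5 ∧ q = 0) ∨ (p = 0 ∧ q = 5))) →
  FF p * FF q * cc k ≤ cc (k + (1 + p + q) / 2)

/-- the exceptional pair `m = 2, L = [3,3]` with leftovers -/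
def S_EXC : Prop := S_CC → ∀ p q : ℕ, p ≤ 8 → q ≤ 8 → ¬ (p = 0 ∧ q = 0) →
  9 / 32 * (FF p * FF q) ≤ cc ((8 + p + q) / 2)

def S_NUMof : Prop := S_CC → S_PHI0 → S_STAR1 → S_EXC → S_NUM

end Pool.Agent.W758.AHC
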